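import Mathlib
import Pool.Agent.N743.Alg
import Pool.Agent.R473.JC.Final

/-!
# `ζ(3)/π³` and the numbers `ζ(3) π^j` at all scales: algebraic approximations of any degree

A real number `u` is near at the scale `X` (with the parameters `d` and `θ`) if some nonzero integer polynomial of degree
at most `d` with coefficients at most `X ^ θ` in absolute value has at `u` a value at most `1 / X` in absolute value. For
`d = 1` these are the good rational approximations. For every `d`, every `M > 1`, every `m` and every sufficiently small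
`θ > 0` we show for the numbers `ζ(3) π^j`, `|j| ≤ m`:

* At every large scale at most one of the numbers is near.
* If one of the numbers is algebraic of degree at most `d` (for `d = 1`: rational) then it is near at all large scales,
  and the others are near at no large scale.
* Otherwise every large scale `X` at which one of the numbers is near is followed by a scale `Z ≥ X` such that between
  `X` and `Z` no other of the numbers is near, and between `Z` and `Z ^ M` none of the numbers is near; and there are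
  arbitrarily large such `Z`.

So one of the numbers is algebraic of degree at most `d` if and only if at every large scale one of them is near. The same
holds for `ζ(3)/π³` and every value at `π` of a polynomial whose coefficients are values of integer polynomials at
`ζ(3)/π³`, if this polynomial is not constant.
-/

set_option autoImplicit false

namespace Pool.Agent.Results.MP_e47f08_nt.AlgebraicScaleDichotomy

open Polynomial

/-- `ζ(3)` -/
noncomputable def zeta3 : ℝ := ∑' j : ℕ, 1 / ((j : ℝ) + 1) ^ 3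

/-- `u` is algebraic of degree at most `d` (`d = 1`: `u` is rational) -/
def Algebraic (d : ℕ) (u : ℝ) : Prop := ∃ P : ℤ[X], P ≠ 0 ∧ P.natDegree ≤ d ∧ aeval u P = 0

/-- some nonzero integer polynomial of degree at most `d` with coefficients at most `X ^ θ` in absolute value has at `u` a
value at most `1 / X` in absolute value -/
def Near (d : ℕ) (θ X u : ℝ) : Prop :=
  ∃ P : ℤ[X], P ≠ 0 ∧ P.natDegree ≤ d ∧ (∀ k, |((P.coeff k : ℤ) : ℝ)| ≤ X ^ θ) ∧ |aeval u P| ≤ X⁻¹

/-- The scale dichotomy in degree `d` with the parameters `θ` and `M` for the numbers `x i`, `i : ι`. -/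
structure Dichotomy {ι : Type} (x : ι → ℝ) (d : ℕ) (θ M : ℝ) : Prop where
  /-- at every large scale at most one of the numbers is near -/
  exclusive : ∃ K : ℝ, ∀ X ≥ K, ∀ i j, Near d θ X (x i) → Near d θ X (x j) → i = j
  /-- if one of the numbers is algebraic of degree at most `d`, it is near at all large scales, and the others are near at
  no large scale and not algebraic of degree at most `d` -/
  algebraic_case : ∀ i, Algebraic d (x i) → ∃ K : ℝ, ∀ X ≥ K, Near d θ X (x i) ∧
    ∀ j, j ≠ i → ¬ Near d θ X (x j) ∧ ¬ Algebraic d (x j)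
  /-- if none of the numbers is algebraic of degree at most `d`, every large scale `X` at which `x i` is near is followed
  by a scale `Z ≥ X` such that only `x i` is near between `X` and `Z` and none of the numbers is near between `Z` and
  `Z ^ M` -/
  void_case : (∀ i, ¬ Algebraic d (x i)) → ∃ K : ℝ, ∀ X ≥ K, ∀ i, Near d θ X (x i) → ∃ Z ≥ X,
    (∀ Y, X ≤ Y → Y ≤ Z → ∀ j, Near d θ Y (x j) → j = i) ∧ ∀ Y, Z < Y → Y ≤ Z ^ M → ∀ j, ¬ Near d θ Y (x j)
  /-- if none of the numbers is algebraic of degree at most `d`, there are arbitrarily large `Z` such that none of the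
  numbers is near at any scale between `Z` and `Z ^ M` -/
  voids : (∀ i, ¬ Algebraic d (x i)) → ∀ K : ℝ, ∃ Z ≥ K, ∀ Y, Z < Y → Y ≤ Z ^ M → ∀ j, ¬ Near d θ Y (x j)
  /-- one of the numbers is algebraic of degree at most `d` if and only if at every large scale one of them is near -/
  equiv : (∃ i, Algebraic d (x i)) ↔ ∃ K : ℝ, ∀ X ≥ K, ∃ i, Near d θ X (x i)

lemma of_lib {ι : Type} {x : ι → ℝ} {d : ℕ} {θ M : ℝ}
    (h : Pool.Agent.N743.Dichotomy (fun i => Pool.Agent.N743.AlgDeg d (x i))
      (fun X i => Pool.Agent.N743.AlgNear d θ X (x i)) M) : Dichotomy x d θ M :=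
  ⟨h.excl, h.good_case, h.void_case, h.voids, h.equiv⟩

/-- the value at `π` of the polynomial whose coefficients are the values of integer polynomials at `ζ(3) / π³` -/
noncomputable def value (P : ℤ[X][X]) : ℝ := (P.map (aeval (zeta3 / Real.pi ^ 3)).toRingHom).eval Real.pi

lemma zeta3_pos : 0 < zeta3 := by
  unfold zeta3
  refine Summable.tsum_pos ?_ (fun i => by positivity) 0 (by norm_num)
  have h := (summable_nat_add_iff 1).2 (Real.summable_one_div_nat_pow.2 (by norm_num : 1 < 3))
  refine h.congr fun n => ?_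
  push_cast
  ring

theorem jointR_value (P : ℤ[X][X])
    (hP : (P.map (aeval (zeta3 / Real.pi ^ 3)).toRingHom).natDegree ≠ 0) :
    Pool.Agent.R356.JointR (zeta3 / Real.pi ^ 3) (value P) := by
  refine Pool.Agent.R473.JC.jointR_of_alg Real.pi
    (Pool.Agent.R473.JC.measT_three _ (Or.inr (Or.inl rfl))) _ _ ?_
  obtain ⟨u, hu⟩ : ∃ u : ℝ, u = zeta3 / Real.pi ^ 3 := ⟨_, rfl⟩
  obtain ⟨v, hv⟩ : ∃ v : ℝ, v = value P := ⟨_, rfl⟩
  rw [← hu, ← hv]
  unfold value at hv
  rw [← hu] at hP hv
  let g : ℤ[X] →+* Algebra.adjoin ℤ ({u, v} : Set ℝ) :=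
    (aeval (⟨u, Pool.Agent.R473.JC.mem_u u v⟩ : Algebra.adjoin ℤ ({u, v} : Set ℝ))).toRingHom
  have hg : (algebraMap (Algebra.adjoin ℤ ({u, v} : Set ℝ)) ℝ).comp g = (aeval u : ℤ[X] →ₐ[ℤ] ℝ).toRingHom := by
    refine Polynomial.ringHom_ext (fun a => by simp) ?_
    simp only [g, RingHom.comp_apply, AlgHom.toRingHom_eq_coe, RingHom.coe_coe, aeval_X]
    rfl
  have hmap : (P.map g).map (algebraMap (Algebra.adjoin ℤ ({u, v} : Set ℝ)) ℝ) =
      P.map (aeval u : ℤ[X] →ₐ[ℤ] ℝ).toRingHom := by
    rw [Polynomial.map_map, hg]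
  refine Pool.Agent.R473.JC.alg_of_eq u v Real.pi (P.map g) ?_ v (Pool.Agent.R473.JC.mem_v u v) ?_
  · intro h0
    apply hP
    rw [← hmap]
    exact Nat.le_zero.1 ((natDegree_map_le).trans h0.le)
  · rw [aeval_def, ← eval_map, hmap, hv]

/-- **The scale dichotomy for algebraic approximations** of `ζ(3)/π³`, of the numbers `ζ(3) π^j` and of the polynomials in
`π` with coefficients in `ℤ[ζ(3)/π³]`. -/
theorem result :
    -- (1) the numbers `ζ(3) π^j`, `|j| ≤ m`
    (∀ (m d : ℕ) (M : ℝ), 1 < M → ∃ θ₀ : ℝ, 0 < θ₀ ∧ ∀ θ : ℝ, 0 < θ → θ ≤ θ₀ →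
      Dichotomy (fun j : {j : ℤ // |j| ≤ m} => zeta3 * Real.pi ^ (j : ℤ)) d θ M) ∧
    -- (2) `ζ(3)/π³` and a nonconstant polynomial in `π` with coefficients in `ℤ[ζ(3)/π³]`
    (∀ P : ℤ[X][X], (P.map (aeval (zeta3 / Real.pi ^ 3)).toRingHom).natDegree ≠ 0 →
      ∀ (d : ℕ) (M : ℝ), 1 < M → ∃ θ₀ : ℝ, 0 < θ₀ ∧ ∀ θ : ℝ, 0 < θ → θ ≤ θ₀ →
        Dichotomy ![zeta3 / Real.pi ^ 3, value P] d θ M) := by
  refine ⟨fun m d M hM => ?_, fun P hP d M hM => ?_⟩
  · have hfin : Finite {i : ℤ // |i| ≤ m} :=
      Finite.of_injective (fun i : {i : ℤ // |i| ≤ m} => (⟨i.1, abs_le.1 i.2⟩ : Set.Icc (-(m : ℤ)) m))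
        (fun a b hab => Subtype.ext (Subtype.mk.inj hab))
    obtain ⟨θ₀, h0, h⟩ := Pool.Agent.N743.dichotomy_alg (ι := {i : ℤ // |i| ≤ m})
      (fun i => zeta3 * Real.pi ^ (i : ℤ))
      (fun i j hij => Pool.Agent.R473.JC.joint_powers Real.pi
        (Pool.Agent.R473.JC.measT_three _ (Or.inr (Or.inl rfl))) zeta3 zeta3_pos.ne' i.1 j.1
          (fun h => hij (Subtype.ext h))) d M hM
    exact ⟨θ₀, h0, fun θ h1 h2 => of_lib (h θ h1 h2)⟩
  · have hJ := jointR_value P hP
    obtain ⟨θ₀, h0, h⟩ := Pool.Agent.N743.dichotomy_alg (ι := Fin 2)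
      (![zeta3 / Real.pi ^ 3, value P]) (fun i j hij => by
        fin_cases i <;> fin_cases j
        · exact absurd rfl hij
        · exact hJ
        · exact hJ.symm
        · exact absurd rfl hij) d M hM
    exact ⟨θ₀, h0, fun θ h1 h2 => of_lib (h θ h1 h2)⟩

end Pool.Agent.Results.MP_e47f08_nt.AlgebraicScaleDichotomy
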