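import Mathlib
import Pool.Agent.Results.MP_7e9a3a_nt.IndependentBases

/-!
# The digits of `ζ(3)/π³` and of the numbers `ζ(3) π^j` in two independent bases

For a set `A` of bases and an infinite set `S` of integers let `K_A` be the field generated by all real numbers which in
some base of `A` have `O(n)` different blocks of `n` digits, `n ∈ S` (for instance rational numbers, automatic and Sturmian
numbers). The number `ζ(3)/π³` is in `K_A` if it is rational.

(1) If `A` and `B` generate subgroups of the multiplicative group of `ℚ` with trivial intersection, then over one of the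
fields `K_A`, `K_B` all the numbers `t π^j`, `j ∈ ℤ`, with at most one exception, are transcendental, for every real
`t ≠ 0`, for instance `t = ζ(3)`. So over this field `ζ(3)/π³` is transcendental or `ζ(3) π^j` is, for every `j ≠ -3`.

(2) For every `S` this holds for the field belonging to all bases multiplicatively dependent on `b`, for all bases `b`
apart from those multiplicatively dependent on one integer `c`, which depends only on `S`.

(3) Let `b` and `c` be multiplicatively independent. For all `m`, `C` and all large `n` (without exceptions), in one of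
the two bases all the numbers `ζ(3) π^j`, `|j| ≤ m`, with at most one exception, have more than `C n` different blocks of
`n` digits.

The proof uses the starting result on the digits of `π` in independent bases
(`MP_7e9a3a_nt.IndependentBases`): `π` is transcendental over `K_A` or over `K_B`.
-/

set_option autoImplicit false

namespace Pool.Agent.Results.MP_e47f08_nt.DigitsInTwoBases

/-- the digit of index `n + 1` after the point in the base `b` expansion of `x` -/
noncomputable def digit (b : ℕ) (x : ℝ) (n : ℕ) : ℤ := ⌊x * (b : ℝ) ^ (n + 1)⌋ % (b : ℤ)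

/-- the number of different blocks of `n` consecutive digits (after the point) of `x` in base `b` -/
noncomputable def blocks (b : ℕ) (x : ℝ) (n : ℕ) : ℕ :=
  (Set.range fun i => fun j : Fin n => digit b x (i + j)).ncard

/-- `a` and `b` are multiplicatively independent -/
def Independent (a b : ℕ) : Prop := ∀ k l : ℕ, a ^ k = b ^ l → k = 0 ∧ l = 0

/-- the field generated by all real numbers which in some base `b ∈ A` have at most `C n` different
blocks of `n` digits for all `n ∈ S`; `b` and `C` may depend on the number -/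
noncomputable def lowField (S A : Set ℕ) : Subfield ℝ :=
  Subfield.closure {x | ∃ b ∈ A, ∃ C : ℝ, ∀ n ∈ S, (blocks b x n : ℝ) ≤ C * n}

/-- the subgroup of the multiplicative group of `ℚ` generated by `A` -/
def group (A : Set ℕ) : Subgroup ℚˣ := Subgroup.closure {u | ∃ b ∈ A, ((u : ℚˣ) : ℚ) = b}

/-- `ζ(3)` -/
noncomputable def zeta3 : ℝ := ∑' j : ℕ, 1 / ((j : ℝ) + 1) ^ 3

/-- for every real `t ≠ 0`, all the numbers `t π^j`, `j ∈ ℤ`, with at most one exception, are transcendental over `K` -/
def AllButOne (K : Subfield ℝ) : Prop :=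
  ∀ t : ℝ, t ≠ 0 → ∃ i : ℤ, ∀ j : ℤ, j ≠ i → Transcendental K (t * Real.pi ^ j)

/-- all the numbers `ζ(3) π^j`, `|j| ≤ m`, with at most one exception, have more than `C n` different blocks of `n` digits
in base `b` -/
def ManyBlocks (m : ℕ) (C : ℝ) (b n : ℕ) : Prop :=
  ∃ i : ℤ, ∀ j : ℤ, |j| ≤ m → j ≠ i → C * n < blocks b (zeta3 * Real.pi ^ j) n

lemma zeta3_pos : 0 < zeta3 := by
  unfold zeta3
  refine Summable.tsum_pos ?_ (fun i => by positivity) 0 (by norm_num)
  have h := (summable_nat_add_iff 1).2 (Real.summable_one_div_nat_pow.2 (by norm_num : 1 < 3))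
  refine h.congr fun n => ?_
  push_cast
  ring

/-- two of the numbers `t π^j` are not algebraic over a field over which `π` is transcendental -/
lemma not_two (K : Subfield ℝ) (hK : Transcendental K Real.pi) (t : ℝ) (ht : t ≠ 0) (i j : ℤ)
    (hij : i ≠ j) (hi : IsAlgebraic K (t * Real.pi ^ i)) (hj : IsAlgebraic K (t * Real.pi ^ j)) :
    False := by
  have hp := Real.pi_pos.ne'
  have key : ∀ i j : ℤ, i < j → IsAlgebraic K (t * Real.pi ^ i) → IsAlgebraic K (t * Real.pi ^ j) →
      False := by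
    intro i j hij hi hj
    have h1 : IsAlgebraic K ((t * Real.pi ^ j) * (t * Real.pi ^ i)⁻¹) := hj.mul hi.inv
    have h2 : (t * Real.pi ^ j) * (t * Real.pi ^ i)⁻¹ = Real.pi ^ (j - i).toNat := by
      have h3 : Real.pi ^ (j - i).toNat = Real.pi ^ (j - i) := by
        rw [← zpow_natCast, Int.toNat_of_nonneg (by omega)]
      rw [h3, zpow_sub₀ hp]
      field_simp
    rw [h2] at h1
    exact hK (h1.of_pow (by omega))
  rcases lt_or_gt_of_ne hij with h | h
  · exact key i j h hi hj
  · exact key j i h hj hi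

lemma allButOne_of (K : Subfield ℝ) (hK : Transcendental K Real.pi) : AllButOne K := by
  intro t ht
  by_cases h : ∃ i : ℤ, IsAlgebraic K (t * Real.pi ^ i)
  · obtain ⟨i, hi⟩ := h
    exact ⟨i, fun j hj hj2 => not_two K hK t ht j i hj hj2 hi⟩
  · push Not at h
    exact ⟨0, fun j _ => h j⟩

/-- **Main theorem.** -/
theorem result :
    -- (1) two sets of bases
    (∀ S : Set ℕ, S.Infinite → ∀ A B : Set ℕ, (∀ b ∈ A, 2 ≤ b) → (∀ b ∈ B, 2 ≤ b) →
      group A ⊓ group B = ⊥ → AllButOne (lowField S A) ∨ AllButOne (lowField S B)) ∧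
    -- (2) all bases but one class of multiplicatively dependent bases
    (∀ S : Set ℕ, S.Infinite → ∃ c : ℕ, 2 ≤ c ∧ ∀ b : ℕ, 2 ≤ b → Independent b c →
      AllButOne (lowField S {d | 2 ≤ d ∧ ¬ Independent d b})) ∧
    -- (3) two independent bases, every large number of digits
    (∀ b c : ℕ, 2 ≤ b → 2 ≤ c → Independent b c → ∀ (m : ℕ) (C : ℝ), ∃ n₀ : ℕ, ∀ n ≥ n₀,
      ManyBlocks m C b n ∨ ManyBlocks m C c n) := by
  obtain ⟨h1, h2, -⟩ := Pool.Agent.Results.MP_7e9a3a_nt.IndependentBases.result Real.pi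
    (Or.inr (Or.inl rfl))
  refine ⟨fun S hS A B hA hB hAB => ?_, fun S hS => ?_, fun b c hb hc hbc m C => ?_⟩
  · rcases h2 S hS A B hA hB hAB with h | h
    · exact Or.inl (allButOne_of _ h.1)
    · exact Or.inr (allButOne_of _ h.1)
  · obtain ⟨c, hc, h⟩ := h1 S hS
    exact ⟨c, hc, fun b hb hbc => allButOne_of _ (h b hb hbc).1.1⟩
  · by_contra hcon
    push Not at hcon
    -- at infinitely many `n` both bases have two exceptions
    have hex : ∀ N : ℕ, ∃ n ≥ N, ∃ i j k l : ℤ, (|i| ≤ m ∧ |j| ≤ m ∧ |k| ≤ m ∧ |l| ≤ m) ∧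
        i ≠ j ∧ k ≠ l ∧ (blocks b (zeta3 * Real.pi ^ i) n : ℝ) ≤ C * n ∧
        (blocks b (zeta3 * Real.pi ^ j) n : ℝ) ≤ C * n ∧
        (blocks c (zeta3 * Real.pi ^ k) n : ℝ) ≤ C * n ∧
        (blocks c (zeta3 * Real.pi ^ l) n : ℝ) ≤ C * n := by
      intro N
      obtain ⟨n, hn, hnb, hnc⟩ := hcon N
      unfold ManyBlocks at hnb hnc
      push Not at hnb hnc
      obtain ⟨i, hi, -, hi2⟩ := hnb (m + 1)
      obtain ⟨j, hj, hji, hj2⟩ := hnb i
      obtain ⟨k, hk, -, hk2⟩ := hnc (m + 1)
      obtain ⟨l, hl, hlk, hl2⟩ := hnc k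
      exact ⟨n, hn, i, j, k, l, ⟨hi, hj, hk, hl⟩, hji.symm, hlk.symm, hi2, hj2, hk2, hl2⟩
    -- one quadruple of exponents for infinitely many `n`
    choose f hf i j k l hb1 hb2 hb3 hb4 hb5 hb6 hb7 using hex
    let g : ℕ → (Set.Icc (-(m : ℤ)) m) × (Set.Icc (-(m : ℤ)) m) × (Set.Icc (-(m : ℤ)) m) ×
        (Set.Icc (-(m : ℤ)) m) := fun N =>
      (⟨i N, abs_le.1 (hb1 N).1⟩, ⟨j N, abs_le.1 (hb1 N).2.1⟩, ⟨k N, abs_le.1 (hb1 N).2.2.1⟩,
        ⟨l N, abs_le.1 (hb1 N).2.2.2⟩)
    obtain ⟨y, hy⟩ := Finite.exists_infinite_fiber g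
    have hT : (g ⁻¹' {y}).Infinite := Set.infinite_coe_iff.1 hy
    set S : Set ℕ := f '' (g ⁻¹' {y}) with hSdef
    have hS : S.Infinite := by
      intro hfin
      obtain ⟨M, hM⟩ := hfin.bddAbove
      obtain ⟨N, hN, hNM⟩ := hT.exists_gt M
      have := hM ⟨N, hN, rfl⟩
      have := hf N
      omega
    obtain ⟨N₀, hN₀⟩ := hT.nonempty
    have heq : ∀ N ∈ g ⁻¹' {y}, i N = i N₀ ∧ j N = j N₀ ∧ k N = k N₀ ∧ l N = l N₀ := by
      intro N hN
      have h3 : g N = g N₀ := by
        rw [Set.mem_preimage, Set.mem_singleton_iff] at hN hN₀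
        rw [hN, hN₀]
      simp only [g, Prod.mk.injEq] at h3
      exact ⟨congrArg Subtype.val h3.1, congrArg Subtype.val h3.2.1, congrArg Subtype.val h3.2.2.1,
        congrArg Subtype.val h3.2.2.2⟩
    have hgr : group {b} ⊓ group {c} = ⊥ := Pool.Agent.TH796.AL.Ai.group_inf hb hc hbc
    have hmem : ∀ (a : ℕ) (x : ℝ), (∀ n ∈ S, (blocks a x n : ℝ) ≤ C * n) → x ∈ lowField S {a} :=
      fun a x h => Subfield.subset_closure ⟨a, rfl, C, h⟩
    have halg : ∀ (a : ℕ) (x : ℝ), x ∈ lowField S {a} → IsAlgebraic (lowField S {a}) x :=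
      fun a x h => isAlgebraic_algebraMap (⟨x, h⟩ : lowField S {a})
    have hz := zeta3_pos.ne'
    rcases h2 S hS {b} {c} (by rintro x rfl; exact hb) (by rintro x rfl; exact hc) hgr with h | h
    · refine not_two _ h.1 zeta3 hz (i N₀) (j N₀) (hb2 N₀) (halg b _ (hmem b _ ?_))
        (halg b _ (hmem b _ ?_))
      · rintro n ⟨N, hN, rfl⟩
        rw [← (heq N hN).1]
        exact hb4 N
      · rintro n ⟨N, hN, rfl⟩
        rw [← (heq N hN).2.1]
        exact hb5 N
    · refine not_two _ h.1 zeta3 hz (k N₀) (l N₀) (hb3 N₀) (halg c _ (hmem c _ ?_))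
        (halg c _ (hmem c _ ?_))
      · rintro n ⟨N, hN, rfl⟩
        rw [← (heq N hN).2.2.1]
        exact hb6 N
      · rintro n ⟨N, hN, rfl⟩
        rw [← (heq N hN).2.2.2]
        exact hb7 N

end Pool.Agent.Results.MP_e47f08_nt.DigitsInTwoBases
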