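import Mathlib
import Pool.Agent.R473.JC.Final

/-!
# The algebraic complexity of the digits of `ζ(3) / π³` and of a second number

`S(X) = s_1 X + ⋯ + s_L X^L`, where the `s_i` are the digits of a real number `x` in base `b` after
at most `K` of them have been changed. The `K`-error algebraic complexity `N_b(x) = N_b(x; r, K, L)`
is the least `k` such that `X^(L+1)` divides `P(X, S(X))` for some nonzero polynomial `P(X, Y)` of
degree at most `r` in `Y` and at most `k` in `X` and some such choice of `S`; it is bounded as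
`L → ∞` if `x` is rational (`r ≥ 1`).

Let `u = ζ(3) / π³`, and let `v` be the value of a nonconstant polynomial at `π`, whose coefficients are integer
polynomials in `u` (for instance `v = ζ(3) = u π³`, `v = ζ(3) + π²`, …), or `v = ζ(3) π^j` with any integer `j ≠ -3`. Then the
digits of `u` in a base `b` and those of `v` in a base `b'` cannot both have low algebraic complexity:
there is `A ≥ 1`, which depends only on `r` and `v`, such that for all bases, all lengths `L, L'` and all numbers of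
errors `K, K'`: `min (L log b, L' log b') ≤ A^(K+K'+1) ((N_b(u) + 1) log b + (N_b'(v) + 1) log b')`. In particular, if the digits of
`ζ(3) / π³` have algebraic complexity `o(L)` in one base (rational numbers have), then the digits of all those
numbers `v` in all bases have algebraic complexity at least `c L`, and for every `m`, at every length `L` all but at most
one of the numbers `ζ(3) π^j`, `|j| ≤ m`, have algebraic complexity at least `c L - 1`.

Proof. Library theorem on pairs (`Pool.Agent.R473.JC`): `π` is algebraic over `ℤ[u, v]` and has a transcendence measure.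
-/

set_option autoImplicit false

namespace Pool.Agent.Results.MP_e47f08_nt.JointAlgebraicComplexity

open Finset Polynomial Module

/-- `ζ(3) = ∑ 1 / (n+1)^3` -/
noncomputable def zeta3 : ℝ := ∑' n : ℕ, 1 / ((n : ℝ) + 1) ^ 3

/-- the `i`-th digit of `x` after the point in base `b` -/
noncomputable def digit (b : ℕ) (x : ℝ) (i : ℕ) : ℤ := ⌊x * (b : ℝ) ^ i⌋ % (b : ℤ)

/-- the polynomial `s_1 X + s_2 X^2 + ⋯ + s_L X^L` -/
noncomputable def seqPoly (s : ℕ → ℤ) (L : ℕ) : ℚ[X] := ∑ l ∈ Icc 1 L, C (s l : ℚ) * X ^ l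

/-- `s` is a sequence of base `b` digits, and among the places `1, …, L` at most `K` are such that
`s_l` is not the `l`-th digit of `x` -/
def Near (b : ℕ) (x : ℝ) (K L : ℕ) (s : ℕ → ℤ) : Prop :=
  (∀ l, 0 ≤ s l ∧ s l < b) ∧ {l : ℕ | 1 ≤ l ∧ l ≤ L ∧ s l ≠ digit b x l}.ncard ≤ K

/-- there is a nonzero polynomial `P(X, Y)` over `ℚ` of degree `≤ r` in `Y` and `≤ k` in `X` such
that `P(X, S(X))` is divisible by `X^(L+1)`, where `S` is the polynomial of the first `L` terms
of `s` -/
def AlgRelation (s : ℕ → ℤ) (r L k : ℕ) : Prop :=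
  ∃ P : ℚ[X][X], P ≠ 0 ∧ P.natDegree ≤ r ∧ (∀ j, (P.coeff j).natDegree ≤ k) ∧
    X ^ (L + 1) ∣ P.eval (seqPoly s L)

/-- the `K`-error algebraic complexity of degree `r` of the first `L` digits of `x` in base `b`: the
least `k` such that after the change of at most `K` of the digits there is a relation with
coefficients of degree at most `k` -/
noncomputable def complexity (b : ℕ) (x : ℝ) (r K L : ℕ) : ℕ :=
  sInf {k : ℕ | ∃ s, Near b x K L s ∧ AlgRelation s r L k}

/-- the joint lower bound for `u` and `v` in degree `r`, with the constant `A`, in all pairs of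
bases, for all lengths and all numbers of errors -/
def Bound (A : ℝ) (r : ℕ) (u v : ℝ) : Prop :=
  ∀ b b' : ℕ, 2 ≤ b → 2 ≤ b' → ∀ K K' L L' : ℕ,
    min (L * Real.log b) (L' * Real.log b') ≤
      A ^ (K + K' + 1) * ((complexity b u r K L + 1) * Real.log b +
        (complexity b' v r K' L' + 1) * Real.log b')

/-- the value at `π` of the polynomial whose coefficients are the values of integer polynomials at `ζ(3) / π³` -/
noncomputable def value (P : ℤ[X][X]) : ℝ := (P.map (aeval (zeta3 / Real.pi ^ 3)).toRingHom).eval Real.pi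

lemma zeta3_pos : 0 < zeta3 := by
  unfold zeta3
  refine Summable.tsum_pos ?_ (fun i => by positivity) 0 (by norm_num)
  have h := (summable_nat_add_iff 1).2 (Real.summable_one_div_nat_pow.2 (by norm_num : 1 < 3))
  refine h.congr fun n => ?_
  push_cast
  ring

/-- the case of one base, one length and one number of errors -/
lemma one_base (u v A : ℝ) (hA : 1 ≤ A) (r : ℕ) (h : Bound A r u v) (b : ℕ) (hb : 2 ≤ b)
    (K L : ℕ) : (1 / A ^ 2) ^ (K + 1) * (L : ℝ) ≤
      complexity b u r K L + complexity b v r K L + 2 := by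
  have hl : 0 < Real.log b := Real.log_pos (by exact_mod_cast (by omega : 1 < b))
  have hA0 : 0 < A := by linarith
  have h1 := h b b hb hb K K L L
  rw [min_self] at h1
  have h2 : (L : ℝ) ≤ A ^ (K + K + 1) * (complexity b u r K L + complexity b v r K L + 2) := by
    have h3 : (L : ℝ) * Real.log b ≤
        (A ^ (K + K + 1) * (complexity b u r K L + complexity b v r K L + 2)) * Real.log b := by
      linarith
    exact le_of_mul_le_mul_right h3 hl
  have h4 : A ^ (K + K + 1) ≤ (A ^ 2) ^ (K + 1) := by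
    rw [← pow_mul]
    exact pow_le_pow_right₀ hA (by omega)
  rw [div_pow, one_pow, div_mul_eq_mul_div, one_mul, div_le_iff₀ (by positivity)]
  calc (L : ℝ) ≤ A ^ (K + K + 1) * (complexity b u r K L + complexity b v r K L + 2) := h2
    _ ≤ (A ^ 2) ^ (K + 1) * (complexity b u r K L + complexity b v r K L + 2) :=
        mul_le_mul_of_nonneg_right h4 (by positivity)
    _ = _ := by ring

/-- polynomials in `π` with coefficients in `ℤ[ζ(3)/π³]` -/
theorem poly (P : ℤ[X][X]) (hP : (P.map (aeval (zeta3 / Real.pi ^ 3)).toRingHom).natDegree ≠ 0) (r : ℕ) :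
    ∃ A : ℝ, 1 ≤ A ∧ Bound A r (zeta3 / Real.pi ^ 3) (value P) := by
  refine Pool.Agent.R473.JC.pair _ _ (Pool.Agent.R473.JC.jointR_of_alg Real.pi
    (Pool.Agent.R473.JC.measT_three _ (Or.inr (Or.inl rfl))) _ _ ?_) r
  obtain ⟨u, hu⟩ : ∃ u : ℝ, u = zeta3 / Real.pi ^ 3 := ⟨_, rfl⟩
  obtain ⟨v, hv⟩ : ∃ v : ℝ, v = value P := ⟨_, rfl⟩
  rw [← hu, ← hv]
  unfold value at hv
  rw [← hu] at hP hv
  let g : ℤ[X] →+* Algebra.adjoin ℤ ({u, v} : Set ℝ) :=
    (aeval (⟨u, Pool.Agent.R473.JC.mem_u u v⟩ : Algebra.adjoin ℤ ({u, v} : Set ℝ))).toRingHom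
  have hg : (algebraMap (Algebra.adjoin ℤ ({u, v} : Set ℝ)) ℝ).comp g = (aeval u : ℤ[X] →ₐ[ℤ] ℝ).toRingHom := by
    refine Polynomial.ringHom_ext (fun a => by simp) ?_
    simp only [g, RingHom.comp_apply, AlgHom.toRingHom_eq_coe, RingHom.coe_coe, aeval_X]
    rfl
  have hmap : (P.map g).map (algebraMap (Algebra.adjoin ℤ ({u, v} : Set ℝ)) ℝ) =
      P.map (aeval u : ℤ[X] →ₐ[ℤ] ℝ).toRingHom := by
    rw [Polynomial.map_map, hg]
  refine Pool.Agent.R473.JC.alg_of_eq u v Real.pi (P.map g) ?_ v (Pool.Agent.R473.JC.mem_v u v) ?_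
  · intro h0
    apply hP
    rw [← hmap]
    exact Nat.le_zero.1 ((natDegree_map_le).trans h0.le)
  · rw [aeval_def, ← eval_map, hmap, hv]

/-- **Main theorem.** -/
theorem result :
    -- (1) a nonconstant polynomial in `π` with coefficients in `ℤ[ζ(3)/π³]`
    (∀ P : ℤ[X][X], (P.map (aeval (zeta3 / Real.pi ^ 3)).toRingHom).natDegree ≠ 0 → ∀ r : ℕ,
      ∃ A : ℝ, 1 ≤ A ∧ Bound A r (zeta3 / Real.pi ^ 3) (value P)) ∧
    -- (2) the numbers `ζ(3) π^j`, `|j| ≤ m`
    (∀ m r : ℕ, ∃ A : ℝ, 1 ≤ A ∧ ∀ i j : ℤ, |i| ≤ m → |j| ≤ m → i ≠ j →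
      Bound A r (zeta3 * Real.pi ^ i) (zeta3 * Real.pi ^ j)) ∧
    -- (3) at every length all but at most one of the numbers `ζ(3) π^j`, `|j| ≤ m`, have linear complexity
    (∀ m r : ℕ, ∃ c : ℝ, 0 < c ∧ ∀ b : ℕ, 2 ≤ b → ∀ K L : ℕ, ∃ i : ℤ, ∀ j : ℤ, |j| ≤ m → j ≠ i →
      c ^ (K + 1) * L ≤ complexity b (zeta3 * Real.pi ^ j) r K L + 1) := by
  have hz := zeta3_pos
  have part2 : ∀ m r : ℕ, ∃ A : ℝ, 1 ≤ A ∧ ∀ i j : ℤ, |i| ≤ m → |j| ≤ m → i ≠ j →
      Bound A r (zeta3 * Real.pi ^ i) (zeta3 * Real.pi ^ j) := by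
    intro m r
    have hfin : Finite {i : ℤ // |i| ≤ m} :=
      Finite.of_injective (fun i : {i : ℤ // |i| ≤ m} => (⟨i.1, abs_le.1 i.2⟩ : Set.Icc (-(m : ℤ)) m))
        (fun a b hab => Subtype.ext (Subtype.mk.inj hab))
    obtain ⟨A, hA, h⟩ := Pool.Agent.R473.JC.family (ι := {i : ℤ // |i| ≤ m})
      (fun i => zeta3 * Real.pi ^ i.1)
      (fun i j hij => Pool.Agent.R473.JC.joint_powers Real.pi
        (Pool.Agent.R473.JC.measT_three _ (Or.inr (Or.inl rfl))) zeta3 hz.ne' i.1 j.1
          (fun h => hij (Subtype.ext h))) r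
    exact ⟨A, hA, fun i j hi hj hij => h ⟨i, hi⟩ ⟨j, hj⟩ (fun h => hij (congrArg Subtype.val h))⟩
  refine ⟨fun P hP r => poly P hP r, part2, fun m r => ?_⟩
  obtain ⟨A, hA, h⟩ := part2 m r
  have hA0 : 0 < A := by linarith
  refine ⟨1 / (2 * A ^ 2), by positivity, fun b hb K L => ?_⟩
  by_contra hcon
  push Not at hcon
  obtain ⟨i, hi, -, hi2⟩ := hcon (m + 1)
  obtain ⟨j, hj, hji, hj2⟩ := hcon i
  have h1 := one_base _ _ A hA r (h i j hi hj (Ne.symm hji)) b hb K L
  have h2 : (1 / (2 * A ^ 2)) ^ (K + 1) * 2 * (L : ℝ) ≤ (1 / A ^ 2) ^ (K + 1) * (L : ℝ) := by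
    refine mul_le_mul_of_nonneg_right ?_ (by positivity)
    have e : (1 / A ^ 2) ^ (K + 1) = (1 / (2 * A ^ 2)) ^ (K + 1) * 2 ^ (K + 1) := by
      rw [← mul_pow]
      congr 1
      field_simp
    rw [e]
    refine mul_le_mul_of_nonneg_left ?_ (by positivity)
    calc (2 : ℝ) = 2 ^ 1 := by norm_num
      _ ≤ 2 ^ (K + 1) := pow_le_pow_right₀ (by norm_num) (by omega)
  linarith

end Pool.Agent.Results.MP_e47f08_nt.JointAlgebraicComplexity
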