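import Mathlib
import Pool.Agent.Q163.LE.Tr
import Pool.Agent.TH957.PB.Alt
import Pool.Agent.Q163.LE.Scales
import Pool.Agent.TH456.TM.Inst

set_option autoImplicit false

/-!
# `ζ(3) / π³` over fields of Liouville numbers

Call a field `F` of real numbers simultaneously Liouville if for any finitely many elements
`x_1, …, x_m` of `F` and any `w` there are arbitrarily large `q` with `‖q x_i‖ < q ^ (-w)` for all
`i`. Besides `ℚ` such fields are, for instance,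

* for a sequence `T_n → ∞` the field of all real numbers `x` which for one `A` and for all `E` have
  rational approximations of height at most `exp (A T_n)` with an error at most `exp (-E T_n)` for
  all large `n`;
* for an infinite set `S` of integers the field generated by all real numbers `x` whose first `N`
  digits in some base have a partition into `o (log N)` phrases (`N ∈ S`), each of which is a digit
  or a copy of a block which begins earlier.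

Let `G` be Catalan's constant and `ε = ±1`. Over every such field `F`

* the line in `ℝ³` of the points `(w, 8 G + w π², π³ + (12 ε + 18 w) ζ(3))` contains no point with coordinates in `F`;
* for every `δ` in `F` at least two of the three numbers `(π³ - δ) / ζ(3)`,
  `8 G - π² (π³ - δ) / (18 ζ(3)) ± (2/3) π²` are not in `F`; for `δ = 0`: at least two of the numbers `ζ(3)/π³`,
  `8 G - π⁵/(18 ζ(3)) ± (2/3) π²` are not in `F`.
-/

namespace Pool.Agent.Results.MP_e47f08_nt.OverLiouvilleFields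

open Filter Topology Pool.Agent.Q163.LE Pool.Agent.TH456.TM

/-- `ζ(3) = ∑ 1 / (n+1)^3` -/
noncomputable def zeta3 : ℝ := ∑' n : ℕ, 1 / ((n : ℝ) + 1) ^ 3

/-- Catalan's constant -/
noncomputable def G : ℝ := ∑' j : ℕ, (-1 : ℝ) ^ j / (2 * (j : ℝ) + 1) ^ 2

/-- the field generated by all real numbers `x` such that, for some base `b`,
`phrases b x N / log N` tends to `0` as `N` tends to infinity in `S` -/
noncomputable def field (S : Set ℕ) : Subfield ℝ := Subfield.closure {x : ℝ | ∃ b : ℕ, 2 ≤ b ∧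
  Tendsto (fun N : ℕ => (phrases b x N : ℝ) / Real.log N) (atTop ⊓ 𝓟 S) (𝓝 0)}

/-- the three numbers, `δ = 0`: `π³/ζ(3)` and `8 G - π⁵/(18 ζ(3)) ± (2/3) π²` -/
noncomputable def x (δ : ℝ) (i : Fin 3) : ℝ :=
  ![(Real.pi ^ 3 - δ) / zeta3, 8 * G - Real.pi ^ 2 * (Real.pi ^ 3 - δ) / (18 * zeta3) + 2 / 3 * Real.pi ^ 2,
    8 * G - Real.pi ^ 2 * (Real.pi ^ 3 - δ) / (18 * zeta3) - 2 / 3 * Real.pi ^ 2] i

theorem zeta3_pos : 0 < zeta3 := Pool.Agent.TH957.PB.Z3_pos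

/-- the line has no point over `F` -/
theorem line {F : Subfield ℝ} (hF : SimLiouville F) {ε : ℝ} (hε : ε = 1 ∨ ε = -1) {w : ℝ} (hw : w ∈ F)
    (hu : 8 * G + w * Real.pi ^ 2 ∈ F) : Real.pi ^ 3 + (12 * ε + 18 * w) * zeta3 ∉ F := by
  classical
  intro hv
  obtain ⟨c, hc, h⟩ := Pool.Agent.TH957.PB.pencil ε hε
  obtain ⟨u, hu'⟩ : ∃ u : ℝ, u = 8 * G + w * Real.pi ^ 2 := ⟨_, rfl⟩
  obtain ⟨v, hv'⟩ : ∃ v : ℝ, v = Real.pi ^ 3 + (12 * ε + 18 * w) * zeta3 := ⟨_, rfl⟩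
  rw [← hu'] at hu
  rw [← hv'] at hv
  have hz := zeta3_pos
  have hp := Real.pi_pos
  obtain ⟨K, hK⟩ : ∃ K : ℝ, K = |w| + 1 := ⟨_, rfl⟩
  have hK1 : 1 ≤ K := by rw [hK]; linarith [abs_nonneg w]
  obtain ⟨C, hC⟩ : ∃ C : ℝ, C = 1 + Real.pi ^ 2 + 18 * zeta3 := ⟨_, rfl⟩
  have hC0 : 0 < C := by rw [hC]; positivity
  obtain ⟨q0, hq0⟩ := exists_nat_gt (C * K ^ 1999 / c)
  obtain ⟨q, hq1, hq2, hq3⟩ := hF {w, u, v} (by
    intro y hy
    simp only [Finset.mem_insert, Finset.mem_singleton] at hy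
    rcases hy with rfl | rfl | rfl
    · exact hw
    · exact hu
    · exact hv) 2001 q0
  obtain ⟨x1, h1⟩ := hq3 w (by simp)
  obtain ⟨x2, h2⟩ := hq3 u (by simp)
  obtain ⟨x3, h3⟩ := hq3 v (by simp)
  have hqr : (1 : ℝ) ≤ q := by exact_mod_cast hq2
  have hqp : (0 : ℝ) < q := by linarith
  obtain ⟨η, hη⟩ : ∃ η : ℝ, η = 1 / (q : ℝ) ^ 2001 := ⟨_, rfl⟩
  rw [← hη] at h1 h2 h3
  have hη1 : η ≤ 1 := by
    rw [hη, div_le_one (by positivity)]
    exact one_le_pow₀ hqr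
  have hη0 : 0 < η := by rw [hη]; positivity
  have hx0 : ((q : ℤ) : ℝ) = q := by push_cast; rfl
  have key := h (q : ℤ) x1 x2 x3 (by exact_mod_cast (by omega : q ≠ 0)) (q * K) (by
      rw [hx0, abs_of_pos hqp]
      nlinarith) (by
      have h4 : |(x1 : ℝ)| ≤ |(q : ℝ) * w - x1| + |(q : ℝ) * w| := by
        have := abs_sub_abs_le_abs_sub (x1 : ℝ) ((q : ℝ) * w)
        rw [abs_sub_comm] at this
        linarith
      rw [abs_mul, abs_of_pos hqp] at h4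
      rw [hK]
      nlinarith)
  rw [hx0] at key
  have e1 : 8 * (q : ℝ) * Pool.Agent.W34.GB.GC + x1 * Real.pi ^ 2 - x2 =
      (q * u - x2) - (q * w - x1) * Real.pi ^ 2 := by
    have : Pool.Agent.W34.GB.GC = G := rfl
    rw [this, hu']
    ring
  have e2 : (q : ℝ) * (Real.pi ^ 3 + 12 * ε * Pool.Agent.W34.GB.Z3) + 18 * x1 * Pool.Agent.W34.GB.Z3 - x3 =
      (q * v - x3) - 18 * (q * w - x1) * zeta3 := by
    have : Pool.Agent.W34.GB.Z3 = zeta3 := rfl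
    rw [this, hv']
    ring
  rw [e1, e2] at key
  have b1 : |(q * u - x2) - (q * w - x1) * Real.pi ^ 2| ≤ C * η := by
    refine (abs_sub _ _).trans ?_
    rw [abs_mul, abs_of_pos (by positivity : (0 : ℝ) < Real.pi ^ 2)]
    have : |(q : ℝ) * w - x1| * Real.pi ^ 2 ≤ η * Real.pi ^ 2 := mul_le_mul_of_nonneg_right h1.le (by positivity)
    have t : C * η = η + η * Real.pi ^ 2 + 18 * zeta3 * η := by rw [hC]; ring
    rw [t]
    have : 0 < 18 * zeta3 * η := by positivity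
    linarith
  have b2 : |(q * v - x3) - 18 * (q * w - x1) * zeta3| ≤ C * η := by
    refine (abs_sub _ _).trans ?_
    rw [abs_mul, abs_mul, abs_of_pos hz, abs_of_pos (by norm_num : (0 : ℝ) < 18)]
    have : 18 * |(q : ℝ) * w - x1| * zeta3 ≤ 18 * η * zeta3 :=
      mul_le_mul_of_nonneg_right (by linarith) hz.le
    have t : C * η = η + η * Real.pi ^ 2 + 18 * η * zeta3 := by rw [hC]; ring
    rw [t]
    have : 0 < η * Real.pi ^ 2 := by positivity
    linarith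
  have b3 := key.trans (max_le b1 b2)
  rw [Real.rpow_neg (by positivity)] at b3
  have e3 : ((q : ℝ) * K) ^ (1999 : ℝ) = (q : ℝ) ^ 1999 * K ^ 1999 := by
    rw [show (1999 : ℝ) = ((1999 : ℕ) : ℝ) by norm_num, Real.rpow_natCast, mul_pow]
  rw [e3, hη, ← div_eq_mul_inv, mul_one_div, div_le_div_iff₀ (by positivity) (by positivity)] at b3
  -- `c q ^ 2001 ≤ C q ^ 1999 K ^ 1999`
  have h5 : c * (q : ℝ) ^ 2 ≤ C * K ^ 1999 := by
    have h6 : (c * (q : ℝ) ^ 2) * (q : ℝ) ^ 1999 ≤ (C * K ^ 1999) * (q : ℝ) ^ 1999 := by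
      calc (c * (q : ℝ) ^ 2) * (q : ℝ) ^ 1999 = c * (q : ℝ) ^ 2001 := by ring
        _ ≤ C * ((q : ℝ) ^ 1999 * K ^ 1999) := b3
        _ = _ := by ring
    exact le_of_mul_le_mul_right h6 (by positivity)
  have h6 : C * K ^ 1999 / c < q := hq0.trans_le (by exact_mod_cast hq1)
  rw [div_lt_iff₀ hc] at h6
  have h7 : c * (q : ℝ) ≤ c * (q : ℝ) ^ 2 := mul_le_mul_of_nonneg_left (le_self_pow₀ hqr two_ne_zero) hc.le
  have h8 : c * (q : ℝ) < q * c := lt_of_le_of_lt (h7.trans h5) h6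
  rw [mul_comm] at h8
  exact lt_irrefl _ h8

theorem pi_notMem {F : Subfield ℝ} (hF : SimLiouville F) : Transcendental F Real.pi :=
  transc_of_measT hF _ measT_pi

theorem pi_sq_notMem {F : Subfield ℝ} (hF : SimLiouville F) : Real.pi ^ 2 ∉ F := by
  intro h
  apply pi_notMem hF
  refine ⟨Polynomial.X ^ 2 - Polynomial.C (⟨Real.pi ^ 2, h⟩ : F), ?_, ?_⟩
  · exact (Polynomial.monic_X_pow_sub_C _ (by norm_num)).ne_zero
  · rw [map_sub, map_pow, Polynomial.aeval_X, Polynomial.aeval_C]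
    exact sub_self _

/-- **`ζ(3) / π³` over simultaneously Liouville fields.** -/
theorem result :
    -- examples of such fields
    (∀ (T : ℕ → ℝ) (hT : Tendsto T atTop atTop), SimLiouville (ApField T hT)) ∧
    (∀ S : Set ℕ, S.Infinite → SimLiouville (field S)) ∧
    ∀ F : Subfield ℝ, SimLiouville F →
      -- (1) the line has no point over `F`
      (∀ ε : ℝ, (ε = 1 ∨ ε = -1) → ∀ w : ℝ,
        ¬ (w ∈ F ∧ 8 * G + w * Real.pi ^ 2 ∈ F ∧ Real.pi ^ 3 + (12 * ε + 18 * w) * zeta3 ∈ F)) ∧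
      -- (2) at least two of the three numbers are not in `F`
      (∀ δ ∈ F, ∀ i j : Fin 3, i ≠ j → x δ i ∉ F ∨ x δ j ∉ F) ∧
      -- (3) the case `δ = 0`
      (∀ ε : ℝ, (ε = 1 ∨ ε = -1) →
        zeta3 / Real.pi ^ 3 ∉ F ∨ 8 * G - Real.pi ^ 5 / (18 * zeta3) + ε * (2 / 3 * Real.pi ^ 2) ∉ F) ∧
      (8 * G - Real.pi ^ 5 / (18 * zeta3) + 2 / 3 * Real.pi ^ 2 ∉ F ∨
        8 * G - Real.pi ^ 5 / (18 * zeta3) - 2 / 3 * Real.pi ^ 2 ∉ F) := by
  refine ⟨sim_apField, sim_lz, fun F hF => ?_⟩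
  have hz := zeta3_pos
  have hp := Real.pi_pos
  have hQ : ∀ a : ℚ, (a : ℝ) ∈ F := fun a => SubfieldClass.ratCast_mem F a
  have hmul : ∀ (a : ℚ) {y : ℝ}, y ∈ F → (a : ℝ) * y ∈ F := fun a y hy => F.mul_mem (hQ a) hy
  have h1 : ∀ ε : ℝ, (ε = 1 ∨ ε = -1) → ∀ w : ℝ,
      ¬ (w ∈ F ∧ 8 * G + w * Real.pi ^ 2 ∈ F ∧ Real.pi ^ 3 + (12 * ε + 18 * w) * zeta3 ∈ F) :=
    fun ε hε w hw => line hF hε hw.1 hw.2.1 hw.2.2
  -- one of the last two numbers
  have h12 : ∀ y : ℝ, ¬ (y + 2 / 3 * Real.pi ^ 2 ∈ F ∧ y - 2 / 3 * Real.pi ^ 2 ∈ F) := by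
    rintro y ⟨ha, hb⟩
    apply pi_sq_notMem hF
    have h2 := F.sub_mem ha hb
    have h3 := hmul (3 / 4) h2
    have e : ((3 / 4 : ℚ) : ℝ) * (y + 2 / 3 * Real.pi ^ 2 - (y - 2 / 3 * Real.pi ^ 2)) = Real.pi ^ 2 := by
      push_cast
      ring
    rwa [e] at h3
  -- the first number and another one
  have h0 : ∀ δ ∈ F, ∀ ε : ℝ, (ε = 1 ∨ ε = -1) → ¬ ((Real.pi ^ 3 - δ) / zeta3 ∈ F ∧
      8 * G - Real.pi ^ 2 * (Real.pi ^ 3 - δ) / (18 * zeta3) + ε * (2 / 3 * Real.pi ^ 2) ∈ F) := by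
    rintro δ hδ ε hε ⟨ha, hb⟩
    obtain ⟨w, hw⟩ : ∃ w : ℝ, w = -(Real.pi ^ 3 - δ) / (18 * zeta3) + 2 / 3 * ε := ⟨_, rfl⟩
    have hε' : ∃ a : ℚ, (a : ℝ) = ε := by
      rcases hε with rfl | rfl
      · exact ⟨1, by norm_num⟩
      · exact ⟨-1, by norm_num⟩
    obtain ⟨a, ha'⟩ := hε'
    have hw1 : w ∈ F := by
      have e : w = ((-1 / 18 : ℚ) : ℝ) * ((Real.pi ^ 3 - δ) / zeta3) + ((2 / 3 * a : ℚ) : ℝ) := by
        rw [hw, ← ha']
        push_cast
        field_simp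
      rw [e]
      exact F.add_mem (hmul _ ha) (hQ _)
    have hw2 : 8 * G + w * Real.pi ^ 2 ∈ F := by
      have e : 8 * G + w * Real.pi ^ 2 =
          8 * G - Real.pi ^ 2 * (Real.pi ^ 3 - δ) / (18 * zeta3) + ε * (2 / 3 * Real.pi ^ 2) := by
        rw [hw]
        field_simp
        ring
      rw [e]
      exact hb
    have hw3 : Real.pi ^ 3 + (12 * (-ε) + 18 * w) * zeta3 = δ := by
      rw [hw]
      field_simp
      ring
    refine h1 (-ε) ?_ w ⟨hw1, hw2, by rw [hw3]; exact hδ⟩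
    rcases hε with rfl | rfl
    · exact Or.inr rfl
    · exact Or.inl (by norm_num)
  refine ⟨h1, ?_, ?_, ?_⟩
  · intro δ hδ i j hij
    have a0 : x δ 0 = (Real.pi ^ 3 - δ) / zeta3 := rfl
    have a1 : x δ 1 = 8 * G - Real.pi ^ 2 * (Real.pi ^ 3 - δ) / (18 * zeta3) + 1 * (2 / 3 * Real.pi ^ 2) := by
      rw [one_mul]; rfl
    have a2 : x δ 2 = 8 * G - Real.pi ^ 2 * (Real.pi ^ 3 - δ) / (18 * zeta3) + (-1) * (2 / 3 * Real.pi ^ 2) := by
      have : x δ 2 = 8 * G - Real.pi ^ 2 * (Real.pi ^ 3 - δ) / (18 * zeta3) - 2 / 3 * Real.pi ^ 2 := rfl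
      rw [this]; ring
    have n01 : ¬ (x δ 0 ∈ F ∧ x δ 1 ∈ F) := by
      rw [a0, a1]; exact h0 δ hδ 1 (Or.inl rfl)
    have n02 : ¬ (x δ 0 ∈ F ∧ x δ 2 ∈ F) := by
      rw [a0, a2]; exact h0 δ hδ (-1) (Or.inr rfl)
    have n12 : ¬ (x δ 1 ∈ F ∧ x δ 2 ∈ F) := h12 _
    fin_cases i <;> fin_cases j <;> first | (exact absurd rfl hij) | skip
    all_goals
      simp only [Fin.zero_eta, Fin.mk_one, Fin.reduceFinMk]
      tauto
  · intro ε hε
    by_contra hcon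
    push Not at hcon
    obtain ⟨ha, hb⟩ := hcon
    refine h0 0 F.zero_mem ε hε ⟨?_, ?_⟩
    · rw [sub_zero]
      have e : Real.pi ^ 3 / zeta3 = (zeta3 / Real.pi ^ 3)⁻¹ := by rw [inv_div]
      rw [e]
      exact F.inv_mem ha
    · rw [sub_zero]
      have e : Real.pi ^ 2 * Real.pi ^ 3 = Real.pi ^ 5 := by ring
      rw [e]
      exact hb
  · by_contra hcon
    push Not at hcon
    exact h12 _ hcon

end Pool.Agent.Results.MP_e47f08_nt.OverLiouvilleFields
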